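import Pool.Agent.Helper90_DRC.Rel
import Pool.Agent.Helper78_DR2.LOC
import Pool.Agent.Helper78_DR2.AMI

/-!
MP_64bfc7_al.  Local-global step: reduced two-sided distributive rings.
-/

set_option autoImplicit false

universe u

namespace Pool.Agent.Helper90_DRC

open Finset MulOpposite
open Pool.Agent.Helper93_DR

/-- the local ring of `f(A)` at `M` inside the division ring `D` -/
def LV {A D : Type*} [Ring A] [DivisionRing D] (h : RD A) {M : Set A} (hM : MR M) (f : A →+* D) :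
    Subring D where
  carrier := {q | ∃ r b, r ∉ M ∧ q * f r = f b}
  one_mem' := ⟨1, 1, hM.one, by simp⟩
  zero_mem' := ⟨1, 0, hM.one, by simp⟩
  mul_mem' := by
    rintro q q' ⟨r, b, hr, h1⟩ ⟨r', b', hr', h2⟩
    obtain ⟨x, w, hx, h3⟩ := hM.ore h b' hr
    refine ⟨r' * x, b * w, hM.prime h hr' hx, ?_⟩
    rw [map_mul, map_mul, mul_assoc, ← mul_assoc q', h2, ← map_mul, h3, map_mul, ← mul_assoc, h1]
  add_mem' := by
    rintro q q' ⟨r, b, hr, h1⟩ ⟨r', b', hr', h2⟩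
    obtain ⟨x, w, hx, h3⟩ := hM.ore h r hr'
    refine ⟨r * x, b * x + b' * w, hM.prime h hr hx, ?_⟩
    rw [add_mul, map_add]
    congr 1
    · rw [map_mul, ← mul_assoc, h1, map_mul]
    · rw [h3, map_mul, ← mul_assoc, h2, map_mul]
  neg_mem' := by
    rintro q ⟨r, b, hr, h1⟩
    exact ⟨r, -b, hr, by rw [neg_mul, h1, map_neg]⟩

theorem mem_LV {A D : Type*} [Ring A] [DivisionRing D] {h : RD A} {M : Set A} {hM : MR M}
    {f : A →+* D} {q : D} : q ∈ LV h hM f ↔ ∃ r b, r ∉ M ∧ q * f r = f b := Iff.rfl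

theorem rd_frac {A D : Type*} [Ring A] [DivisionRing D] (h : RD A) (f : A →+* D) (b t : A)
    (ht : f t ≠ 0) : ∃ x y c d : A, x + y = 1 ∧ (f t)⁻¹ * f b * f x = f c ∧
      (f b ≠ 0 → ((f t)⁻¹ * f b)⁻¹ * f y = f d) := by
  obtain ⟨x, y, c, d, h1, h2, h3⟩ := h b t
  refine ⟨x, y, c, d, h1, ?_, ?_⟩
  · rw [mul_assoc, ← map_mul, h2, map_mul, inv_mul_cancel_left₀ ht]
  · intro hb
    rw [mul_inv_rev, inv_inv, mul_assoc, ← map_mul, h3, map_mul, inv_mul_cancel_left₀ hb]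

theorem LV_tv {A D : Type*} [Ring A] [DivisionRing D] (h : RD A) {M : Set A} (hM : MR M)
    (f : A →+* D) (hf : ∀ q : D, ∃ b t : A, f t ≠ 0 ∧ q = (f t)⁻¹ * f b) : TV (LV h hM f) := by
  intro q
  obtain ⟨b, t, ht, rfl⟩ := hf q
  obtain ⟨x, y, c, d, h1, h2, h3⟩ := rd_frac h f b t ht
  by_cases hb : f b = 0
  · left
    rw [hb, mul_zero]
    exact (LV h hM f).zero_mem
  by_cases hx : x ∈ M
  · have hy : y ∉ M := by
      intro hy
      apply hM.one
      rw [← h1]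
      exact hM.add _ hx _ hy
    exact Or.inr ⟨y, d, hy, h3 hb⟩
  · exact Or.inl ⟨x, c, hx, h2⟩

theorem glo {A : Type u} [Ring A] (hred : ∀ x : A, x * x = 0 → x = 0) (hR : RD A)
    (hL : RD Aᵐᵒᵖ)
    (hD : ∀ (D : Type u) [DivisionRing D] (f : A →+* D),
      (∀ q : D, ∃ b t : A, f t ≠ 0 ∧ q = (f t)⁻¹ * f b) →
      (∀ q : D, ∃ b t : A, f t ≠ 0 ∧ q = f b * (f t)⁻¹) → ∀ x y : A, Rel (f x) (f y))
    (a s : A) : ∃ b, a * s ^ 3 = s * b := by
  by_contra hno
  obtain ⟨M, hM, hsub⟩ := exists_MR {x : A | ∃ b, a * s ^ 3 * x = s * b}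
    ⟨0, by simp⟩
    (by
      rintro x ⟨b, hb⟩ z ⟨b', hb'⟩
      exact ⟨b + b', by rw [mul_add, hb, hb', mul_add]⟩)
    (by
      rintro x ⟨b, hb⟩ r
      exact ⟨b * r, by rw [← mul_assoc, hb, mul_assoc]⟩)
    (by
      rintro ⟨b, hb⟩
      exact hno ⟨b, by rw [← hb, mul_one]⟩)
  obtain ⟨D, hDiv, f, hker, hl, hr⟩ := Helper78_DR2.loc_prime hred hR hL hM
  have hf0 : ∀ x, f x = 0 → ∃ t, t ∉ M ∧ x * t = 0 := fun x hx => (hker x).1 hx
  have hs0 : f s ≠ 0 := by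
    intro hs
    obtain ⟨t, ht, h1⟩ := hf0 s hs
    apply ht
    apply hsub
    refine ⟨0, ?_⟩
    have e : a * s ^ 3 * t = a * s * s * (s * t) := by
      rw [pow_succ, pow_two]
      simp only [mul_assoc]
    rw [e, h1, mul_zero, mul_zero]
  have hmem : ∀ x, f x ∈ LV hR hM f := fun x => ⟨1, x, hM.one, by rw [map_one, mul_one]⟩
  have hrel : Rel (f s * f a * f a) (f s * f a * (f s * f a)) := by
    have := hD D f hl hr (s * a * a) (s * a * (s * a))
    simpa only [map_mul] using this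
  obtain ⟨r, b, hrM, h2⟩ := tvr_rel (LV_tv hR hM f hl) (hmem a) (hmem s) hs0 hrel
  have h3 : f (a * s ^ 3 * r - s * b) = 0 := by
    have e1 : f (a * s ^ 3 * r) = f a * f s ^ 3 * f r := by rw [map_mul, map_mul, map_pow]
    have e2 : f (s * b) = f a * f s ^ 3 * f r := by
      rw [map_mul, ← h2, mul_assoc, mul_inv_cancel_left₀ hs0]
    rw [map_sub, e1, e2, sub_self]
  obtain ⟨t, ht, h4⟩ := hf0 _ h3
  refine hM.prime hR hrM ht (hsub ⟨b * t, ?_⟩)
  rw [sub_mul, sub_eq_zero] at h4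
  rw [← mul_assoc, h4, mul_assoc]

/-- alternative (ii): few generators over an uncountable centre -/
theorem rel_of_few {A : Type u} [Ring A] (hR : RD A) (D : Type u) [DivisionRing D] (f : A →+* D)
    (hl : ∀ q : D, ∃ b t : A, f t ≠ 0 ∧ q = (f t)⁻¹ * f b)
    (hC : Cardinal.aleph0 < Cardinal.mk (Subring.center D)) (S : Set D)
    (hS : Cardinal.mk S < Cardinal.mk (Subring.center D))
    (hgen : ∀ x, f x ∈ Algebra.adjoin (Subring.center D) S) (x y : A) : Rel (f x) (f y) := by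
  apply rel_of_algebraic
  have h1 : ∀ q : D, q ≠ 0 → ∃ x ∈ f.range, q * x ∈ f.range ∧ q⁻¹ * (1 - x) ∈ f.range := by
    intro q hq
    obtain ⟨b, t, ht, rfl⟩ := hl q
    obtain ⟨x, y, c, d, h1, h2, h3⟩ := rd_frac hR f b t ht
    have hb : f b ≠ 0 := right_ne_zero_of_mul hq
    refine ⟨f x, ⟨x, rfl⟩, ⟨c, h2.symm⟩, ⟨d, ?_⟩⟩
    rw [← h3 hb]
    have e : 1 - f x = f y := by
      rw [← map_one f, ← h1, map_add, add_sub_cancel_left]
    rw [e]
  have h2 : (f.range : Set D) ⊆ Algebra.adjoin (Subring.center D) S := by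
    rintro _ ⟨z, rfl⟩
    exact hgen z
  rcases Helper78_DR2.ami S hS hC f.range h1 h2 (f x) with h | h
  · exact h
  · have hc : f x ∈ Subring.center D := Subring.mem_center_iff.mpr (fun d => (h d).symm)
    exact isAlgebraic_algebraMap (A := D) (⟨f x, hc⟩ : Subring.center D)

/-- passage to the opposite ring -/
theorem op_hyp {A : Type u} [Ring A]
    (hD : ∀ (D : Type u) [DivisionRing D] (f : A →+* D),
      (∀ q : D, ∃ b t : A, f t ≠ 0 ∧ q = (f t)⁻¹ * f b) →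
      (∀ q : D, ∃ b t : A, f t ≠ 0 ∧ q = f b * (f t)⁻¹) → ∀ x y : A, Rel (f x) (f y))
    (D : Type u) [DivisionRing D] (f : Aᵐᵒᵖ →+* D)
    (h1 : ∀ q : D, ∃ b t : Aᵐᵒᵖ, f t ≠ 0 ∧ q = (f t)⁻¹ * f b)
    (h2 : ∀ q : D, ∃ b t : Aᵐᵒᵖ, f t ≠ 0 ∧ q = f b * (f t)⁻¹) (x y : Aᵐᵒᵖ) : Rel (f x) (f y) := by
  let g : A →+* Dᵐᵒᵖ :=
    { toFun := fun z => op (f (op z))
      map_one' := by simp
      map_zero' := by simp
      map_mul' := by
        intro z w
        rw [op_mul, map_mul, op_mul]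
      map_add' := by
        intro z w
        rw [op_add, map_add, op_add] }
  have hg : ∀ z, g z = op (f (op z)) := fun z => rfl
  have h3 : Rel (g x.unop) (g y.unop) := by
    apply hD Dᵐᵒᵖ g
    · intro q
      obtain ⟨b, t, ht, h⟩ := h2 q.unop
      refine ⟨b.unop, t.unop, ?_, ?_⟩
      · rw [hg, op_unop]
        intro h0
        exact ht (op_injective h0)
      · rw [hg, hg, op_unop, op_unop, ← op_inv, ← op_mul, ← h, op_unop]
    · intro q
      obtain ⟨b, t, ht, h⟩ := h1 q.unop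
      refine ⟨b.unop, t.unop, ?_, ?_⟩
      · rw [hg, op_unop]
        intro h0
        exact ht (op_injective h0)
      · rw [hg, hg, op_unop, op_unop, ← op_inv, ← op_mul, ← h, op_unop]
  rw [hg, hg, op_unop, op_unop] at h3
  exact h3.of_op

end Pool.Agent.Helper90_DRC
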