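import Pool.Agent.Helper90_DRC.TVR

/-!
MP_64bfc7_al.  Relations over the centre of a division ring and total valuation rings.
-/

set_option autoImplicit false

namespace Pool.Agent.Helper90_DRC

open Finset MulOpposite
open Pool.Agent.Helper93_DR

/-- `x` and `y` satisfy a nonzero non-commutative polynomial over the centre of `D` -/
def Rel {D : Type*} [DivisionRing D] (x y : D) : Prop :=
  ∃ (F : Finset (List (Fin 2))) (c : List (Fin 2) → D), F.Nonempty ∧ (∀ l ∈ F, c l ≠ 0) ∧
    (∀ l ∈ F, ∀ d, c l * d = d * c l) ∧ ∑ l ∈ F, c l * (l.map ![x, y]).prod = 0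

theorem map_prod_wval {R : Type*} [Ring R] (a s : R) (l : List (Fin 2)) :
    (l.map ![s * a * a, s * a * (s * a)]).prod = wval a s l := by
  induction l with
  | nil => rfl
  | cons x l ih =>
    rw [List.map_cons, List.prod_cons, ih, wval]
    have hx : x = 0 ∨ x = 1 := by
      rcases x with ⟨i, hi⟩
      interval_cases i
      · left; rfl
      · right; rfl
    rcases hx with rfl | rfl
    · simp
    · simp

theorem tvr_sum {D : Type*} [DivisionRing D] {V : Subring D} (hV : TV V) {a s : D} (ha : a ∈ V)
    (hs : s ∈ V) (hs0 : s ≠ 0) (F : Finset (List (Fin 2))) (hF : F.Nonempty)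
    (c : List (Fin 2) → D) (hc0 : ∀ l ∈ F, c l ≠ 0) (hc : ∀ l ∈ F, ∀ d, c l * d = d * c l)
    (hsum : ∑ l ∈ F, c l * wval a s l = 0) : s⁻¹ * (a * s ^ 3) ∈ V := by
  by_cases hno : s⁻¹ * (a * s ^ 2) ∈ V
  · have e : s⁻¹ * (a * s ^ 3) = s⁻¹ * (a * s ^ 2) * s := by
      rw [pow_succ s 2]
      simp only [mul_assoc]
    rw [e]
    exact V.mul_mem hno hs
  · obtain ⟨ha0, -, -⟩ := words hV ha hs hs0 hno
    have hw : ∀ l, wval a s l ≠ 0 := wval_ne ha0 hs0
    obtain ⟨l, hl, l', hl', hne, h1, h2⟩ := two_terms hV F hF (fun l => c l * wval a s l)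
      (fun l hl => mul_ne_zero (hc0 l hl) (hw l)) hsum
    have hcl := hc0 l hl
    have hcl' := hc0 l' hl'
    have hci : ∀ d, (c l)⁻¹ * d = d * (c l)⁻¹ := fun d => (Commute.inv_left₀ (hc l hl d)).eq
    have hci' : ∀ d, (c l')⁻¹ * d = d * (c l')⁻¹ := fun d => (Commute.inv_left₀ (hc l' hl' d)).eq
    obtain ⟨z, hz⟩ : ∃ z, z = (c l)⁻¹ * c l' := ⟨_, rfl⟩
    have hz0 : z ≠ 0 := by rw [hz]; exact mul_ne_zero (inv_ne_zero hcl) hcl'
    have hzc : ∀ d, z * d = d * z := by
      intro d
      rw [hz, mul_assoc, hc l' hl', ← mul_assoc, hci, mul_assoc]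
    have hzi : z⁻¹ = (c l')⁻¹ * c l := by rw [hz, mul_inv_rev, inv_inv]
    have hzic : ∀ d, z⁻¹ * d = d * z⁻¹ := fun d => (Commute.inv_left₀ (hzc d)).eq
    have e1 : (c l * wval a s l)⁻¹ * (c l' * wval a s l') = z * ((wval a s l)⁻¹ * wval a s l') := by
      rw [mul_inv_rev, ← hci, hz]
      have e := hc l' hl' (wval a s l)⁻¹
      rw [mul_assoc, ← mul_assoc (wval a s l)⁻¹, ← e]
      simp only [mul_assoc]
    have e2 : (c l' * wval a s l')⁻¹ * (c l * wval a s l)
        = z⁻¹ * ((wval a s l')⁻¹ * wval a s l) := by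
      rw [mul_inv_rev, ← hci', hzi]
      have e := hc l hl (wval a s l')⁻¹
      rw [mul_assoc, ← mul_assoc (wval a s l')⁻¹, ← e]
      simp only [mul_assoc]
    have h1' : z * ((wval a s l)⁻¹ * wval a s l') ∈ V := by rw [← e1]; exact h1
    have h2' : z⁻¹ * ((wval a s l')⁻¹ * wval a s l) ∈ V := by rw [← e2]; exact h2
    rcases hV z with hzV | hzV
    · exact core hV ha hs hs0 hz0 hzV hzc (Ne.symm hne) h2' h1' hno
    · refine core hV ha hs hs0 (inv_ne_zero hz0) hzV hzic hne ?_ h2' hno
      rw [inv_inv]
      exact h1'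

theorem tvr_rel {D : Type*} [DivisionRing D] {V : Subring D} (hV : TV V) {a s : D} (ha : a ∈ V)
    (hs : s ∈ V) (hs0 : s ≠ 0) (h : Rel (s * a * a) (s * a * (s * a))) :
    s⁻¹ * (a * s ^ 3) ∈ V := by
  obtain ⟨F, c, hF, hc0, hc, hsum⟩ := h
  refine tvr_sum hV ha hs hs0 F hF c hc0 hc ?_
  rw [← hsum]
  exact Finset.sum_congr rfl (fun l _ => by rw [map_prod_wval])

/-- an algebraic element satisfies a relation -/
theorem rel_of_algebraic {D : Type*} [DivisionRing D] (x y : D)
    (h : IsAlgebraic (Subring.center D) x) : Rel x y := by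
  classical
  obtain ⟨p, hp, h0⟩ := h
  refine ⟨p.support.image (fun n => List.replicate n 0), fun l => (p.coeff l.length : D),
    ?_, ?_, ?_, ?_⟩
  · rw [Finset.image_nonempty]
    exact Polynomial.support_nonempty.mpr hp
  · intro l hl
    obtain ⟨n, hn, rfl⟩ := Finset.mem_image.mp hl
    show ((p.coeff (List.replicate n (0 : Fin 2)).length : Subring.center D) : D) ≠ 0
    rw [List.length_replicate]
    intro h
    exact (Polynomial.mem_support_iff.mp hn) (Subtype.ext h)
  · intro l _ d
    exact ((Subring.mem_center_iff.mp (p.coeff l.length).2) d).symm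
  · rw [Finset.sum_image (by
      intro n _ m _ h
      simpa using congrArg List.length h)]
    rw [Polynomial.aeval_eq_sum_range, ] at h0
    rw [← h0]
    have hsub : p.support ⊆ Finset.range (p.natDegree + 1) := by
      intro n hn
      rw [Finset.mem_range]
      exact Nat.lt_succ_of_le (Polynomial.le_natDegree_of_mem_supp n hn)
    rw [← Finset.sum_subset hsub]
    · apply Finset.sum_congr rfl
      intro n _
      show ((p.coeff (List.replicate n (0 : Fin 2)).length : Subring.center D) : D) *
        ((List.replicate n (0 : Fin 2)).map ![x, y]).prod = _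
      rw [List.length_replicate, List.map_replicate, List.prod_replicate]
      rfl
    · intro n _ hn
      rw [Polynomial.notMem_support_iff.mp hn, zero_smul]

theorem map_op_prod {D : Type*} [DivisionRing D] (x y : D) (l : List (Fin 2)) :
    (l.map ![op x, op y]).prod = op ((l.reverse.map ![x, y]).prod) := by
  induction l with
  | nil => rfl
  | cons i l ih =>
    rw [List.map_cons, List.prod_cons, ih, List.reverse_cons, List.map_append, List.prod_append,
      List.map_cons, List.map_nil, List.prod_cons, List.prod_nil, mul_one, op_mul]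
    congr 1
    have hx : i = 0 ∨ i = 1 := by
      rcases i with ⟨i, hi⟩
      interval_cases i
      · left; rfl
      · right; rfl
    rcases hx with rfl | rfl
    · simp
    · simp

/-- relations pass to the opposite division ring -/
theorem Rel.of_op {D : Type*} [DivisionRing D] {x y : D} (h : Rel (op x) (op y)) : Rel x y := by
  classical
  obtain ⟨F, c, hF, hc0, hc, hsum⟩ := h
  refine ⟨F.image List.reverse, fun l => unop (c l.reverse), hF.image _, ?_, ?_, ?_⟩
  · intro l hl
    obtain ⟨m, hm, rfl⟩ := Finset.mem_image.mp hl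
    show unop (c m.reverse.reverse) ≠ 0
    rw [List.reverse_reverse]
    intro h0
    exact hc0 m hm (unop_injective h0)
  · intro l hl d
    obtain ⟨m, hm, rfl⟩ := Finset.mem_image.mp hl
    show unop (c m.reverse.reverse) * d = d * unop (c m.reverse.reverse)
    rw [List.reverse_reverse]
    have := congrArg unop (hc m hm (op d))
    simpa using this.symm
  · rw [Finset.sum_image (fun n _ m _ h => List.reverse_injective h)]
    have h1 := congrArg unop hsum
    rw [unop_sum] at h1
    rw [unop_zero] at h1
    rw [← h1]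
    apply Finset.sum_congr rfl
    intro l hl
    show unop (c l.reverse.reverse) * (l.reverse.map ![x, y]).prod = _
    rw [List.reverse_reverse, map_op_prod, unop_mul, unop_op]
    have := congrArg unop (hc l hl (op ((l.reverse.map ![x, y]).prod)))
    simpa using this.symm

end Pool.Agent.Helper90_DRC
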