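import Pool.Agent.Helper93_DR.Free

/-!
MP_64bfc7_al.  Total valuation rings of division rings: if two words in `a`, `s` satisfy a relation
over the centre then `s⁻¹ a s ^ 3` lies in the valuation ring.
-/

set_option autoImplicit false

namespace Pool.Agent.Helper90_DRC

open Finset
open Pool.Agent.Helper93_DR

variable {D : Type*} [DivisionRing D]

/-- total valuation rings -/
def TV (V : Subring D) : Prop := ∀ q : D, q ∈ V ∨ q⁻¹ ∈ V

/-- the maximal ideal -/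
def JJ (V : Subring D) : Set V := {x | (x : D) = 0 ∨ (x : D)⁻¹ ∉ V}

theorem TV.rd {V : Subring D} (hV : TV V) : RD V := by
  intro u v
  by_cases hv : (v : D) = 0
  · refine ⟨0, 1, 0, 0, by simp, by simp, ?_⟩
    have : v = 0 := Subtype.ext hv
    rw [this]
    simp
  by_cases hu : (u : D) = 0
  · refine ⟨1, 0, 0, 0, by simp, ?_, by simp⟩
    have : u = 0 := Subtype.ext hu
    rw [this]
    simp
  rcases hV ((v : D)⁻¹ * u) with h | h
  · refine ⟨1, 0, ⟨_, h⟩, 0, by simp, ?_, by simp⟩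
    apply Subtype.ext
    simp only [mul_one, Subring.coe_mul]
    rw [mul_inv_cancel_left₀ hv]
  · refine ⟨0, 1, 0, ⟨_, h⟩, by simp, by simp, ?_⟩
    apply Subtype.ext
    simp only [mul_one, Subring.coe_mul]
    rw [mul_inv_rev, inv_inv, mul_inv_cancel_left₀ hu]

theorem TV.mr {V : Subring D} (hV : TV V) : MR (JJ V) := by
  constructor
  · exact Or.inl rfl
  · intro x hx y hy
    by_cases hx0 : (x : D) = 0
    · have : x = 0 := Subtype.ext hx0
      rw [this, zero_add]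
      exact hy
    by_cases hy0 : (y : D) = 0
    · have : y = 0 := Subtype.ext hy0
      rw [this, add_zero]
      exact hx
    have hx1 : (x : D)⁻¹ ∉ V := hx.resolve_left hx0
    have hy1 : (y : D)⁻¹ ∉ V := hy.resolve_left hy0
    by_cases h0 : (x : D) + y = 0
    · exact Or.inl h0
    refine Or.inr ?_
    intro h
    have h' : ((x : D) + y)⁻¹ ∈ V := h
    rcases hV ((x : D)⁻¹ * y) with h1 | h1
    · apply hx1
      have e : (x : D)⁻¹ = (1 + (x : D)⁻¹ * y) * ((x : D) + y)⁻¹ := by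
        have e1 : 1 + (x : D)⁻¹ * y = (x : D)⁻¹ * (x + y) := by
          rw [mul_add, inv_mul_cancel₀ hx0]
        rw [e1, mul_assoc, mul_inv_cancel₀ h0, mul_one]
      rw [e]
      exact V.mul_mem (V.add_mem V.one_mem h1) h'
    · apply hy1
      rw [mul_inv_rev, inv_inv] at h1
      have e : (y : D)⁻¹ = ((y : D)⁻¹ * x + 1) * ((x : D) + y)⁻¹ := by
        have e1 : (y : D)⁻¹ * x + 1 = (y : D)⁻¹ * (x + y) := by
          rw [mul_add, inv_mul_cancel₀ hy0]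
        rw [e1, mul_assoc, mul_inv_cancel₀ h0, mul_one]
      rw [e]
      exact V.mul_mem (V.add_mem h1 V.one_mem) h'
  · intro x hx r
    by_cases h0 : (x : D) * r = 0
    · exact Or.inl h0
    refine Or.inr ?_
    intro h
    have h' : ((x : D) * r)⁻¹ ∈ V := h
    have hx0 : (x : D) ≠ 0 := left_ne_zero_of_mul h0
    have hr0 : (r : D) ≠ 0 := right_ne_zero_of_mul h0
    refine (hx.resolve_left hx0) ?_
    have e : (x : D)⁻¹ = r * ((x : D) * r)⁻¹ := by
      rw [mul_inv_rev, mul_inv_cancel_left₀ hr0]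
    rw [e]
    exact V.mul_mem r.2 h'
  · rintro (h | h)
    · exact one_ne_zero h
    · apply h
      have e : ((1 : V) : D)⁻¹ = 1 := by simp
      rw [e]
      exact V.one_mem
  · intro x hx
    have hx0 : (x : D) ≠ 0 := fun h => hx (Or.inl h)
    have hx1 : (x : D)⁻¹ ∈ V := by
      by_contra h
      exact hx (Or.inr h)
    refine ⟨⟨_, hx1⟩, Or.inl ?_⟩
    show (x : D) * (x : D)⁻¹ - 1 = 0
    rw [mul_inv_cancel₀ hx0, sub_self]

theorem map_wval {R S : Type*} [Ring R] [Ring S] (f : R →+* S) (a s : R) (l : List (Fin 2)) :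
    f (wval a s l) = wval (f a) (f s) l := by
  induction l with
  | nil => simp [wval]
  | cons x l ih =>
    rw [wval, wval, map_mul, ih]
    split_ifs <;> simp

theorem wval_append {R : Type*} [Ring R] (a s : R) (l l' : List (Fin 2)) :
    wval a s (l ++ l') = wval a s l * wval a s l' := by
  induction l with
  | nil => simp [wval]
  | cons x l ih =>
    rw [List.cons_append, wval, wval, ih]
    exact (mul_assoc _ _ _).symm

theorem wval_pow {R : Type*} [Ring R] (a s : R) (l : List (Fin 2)) (m : ℕ) :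
    ∃ l', wval a s l' = wval a s l ^ m := by
  induction m with
  | zero => exact ⟨[], by simp [wval]⟩
  | succ m ih =>
    obtain ⟨l', h⟩ := ih
    exact ⟨l' ++ l, by rw [wval_append, h, pow_succ]⟩

theorem wval_ne {a s : D} (ha : a ≠ 0) (hs : s ≠ 0) (l : List (Fin 2)) : wval a s l ≠ 0 := by
  induction l with
  | nil => simp [wval]
  | cons x l ih =>
    rw [wval]
    refine mul_ne_zero ?_ ih
    split_ifs
    · exact mul_ne_zero (mul_ne_zero hs ha) ha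
    · exact mul_ne_zero (mul_ne_zero hs ha) (mul_ne_zero hs ha)

section

variable {V : Subring D} {a s : D}

/-- the value lemma of `Helper93_DR.Free` for total valuation rings -/
theorem words (hV : TV V) (ha : a ∈ V) (hs : s ∈ V) (hs0 : s ≠ 0)
    (hno : s⁻¹ * (a * s ^ 2) ∉ V) :
    a ≠ 0 ∧ (∀ l, (wval a s l)⁻¹ * s ^ 2 ∈ V) ∧
    ∀ l l' : List (Fin 2), l < l' → (wval a s l')⁻¹ * wval a s l ∉ V := by
  have ha0 : a ≠ 0 := by
    rintro rfl
    apply hno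
    simp [V.zero_mem]
  let a' : V := ⟨a, ha⟩
  let s' : V := ⟨s, hs⟩
  have hg0 : s⁻¹ * (a * s ^ 2) ≠ 0 :=
    mul_ne_zero (inv_ne_zero hs0) (mul_ne_zero ha0 (pow_ne_zero 2 hs0))
  have hd : (s⁻¹ * (a * s ^ 2))⁻¹ ∈ V := (hV _).resolve_left hno
  let d : V := ⟨_, hd⟩
  have hdJ : d ∈ JJ V := by
    refine Or.inr ?_
    show ((s⁻¹ * (a * s ^ 2))⁻¹)⁻¹ ∉ V
    rw [inv_inv]
    exact hno
  have hsy : s' * 1 = a' * s' ^ 2 * d := by
    apply Subtype.ext
    show s * 1 = a * s ^ 2 * (s⁻¹ * (a * s ^ 2))⁻¹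
    rw [mul_inv_rev, inv_inv, mul_inv_cancel_left₀ (mul_ne_zero ha0 (pow_ne_zero 2 hs0)), mul_one]
  have hco : ∀ l, ((wval a' s' l : V) : D) = wval a s l := fun l => map_wval V.subtype a' s' l
  refine ⟨ha0, ?_, ?_⟩
  · intro l
    obtain ⟨v, r, hv, h1⟩ := le_val hV.mr hV.rd hV.mr.one hsy l
    have hv0 : (v : D) ≠ 0 := fun h => hv (Or.inl h)
    have hv1 : (v : D)⁻¹ ∈ V := by
      by_contra h
      exact hv (Or.inr h)
    have h2 : s ^ 2 * (v : D) = wval a s l * r := by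
      have := congrArg (fun x : V => (x : D)) h1
      simpa [hco] using this
    have h3 : (wval a s l)⁻¹ * s ^ 2 = r * (v : D)⁻¹ := by
      rw [← mul_inv_cancel_right₀ hv0 (s ^ 2), h2, mul_assoc,
        inv_mul_cancel_left₀ (wval_ne ha0 hs0 l)]
    rw [h3]
    exact V.mul_mem r.2 hv1
  · intro l l' hl hcon
    obtain ⟨v, r, hv, hr, h1⟩ := sl_val hV.mr hV.rd hV.mr.one hdJ hsy l l' hl
    have hv0 : (v : D) ≠ 0 := fun h => hv (Or.inl h)
    have h2 : wval a s l' * (v : D) = wval a s l * r := by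
      have := congrArg (fun x : V => (x : D)) h1
      simpa [hco] using this
    have hr0 : (r : D) ≠ 0 := by
      intro h
      rw [h, mul_zero] at h2
      exact mul_ne_zero (wval_ne ha0 hs0 l') hv0 h2
    refine (hr.resolve_left hr0) ?_
    have hw' := wval_ne ha0 hs0 l'
    have hw := wval_ne ha0 hs0 l
    have hv1 : (v : D)⁻¹ ∈ V := by
      by_contra h
      exact hv (Or.inr h)
    have h3 : (r : D)⁻¹ = (v : D)⁻¹ * ((wval a s l')⁻¹ * wval a s l) := by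
      have h4 : (r : D) = (wval a s l)⁻¹ * (wval a s l' * v) := by
        rw [h2, inv_mul_cancel_left₀ hw]
      rw [h4, mul_inv_rev, mul_inv_rev, inv_inv, mul_assoc]
    rw [h3]
    exact V.mul_mem hv1 hcon

theorem words_ne (hV : TV V) (ha : a ∈ V) (hs : s ∈ V) (hs0 : s ≠ 0)
    (hno : s⁻¹ * (a * s ^ 2) ∉ V) {l l' : List (Fin 2)} (hl : l ≠ l')
    (h1 : (wval a s l)⁻¹ * wval a s l' ∈ V) (h2 : (wval a s l')⁻¹ * wval a s l ∈ V) : False := by
  obtain ⟨-, -, h3⟩ := words hV ha hs hs0 hno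
  rcases lt_or_gt_of_ne hl with h | h
  · exact h3 l l' h h2
  · exact h3 l' l h h1

end

/-- in a vanishing sum two terms have the same value -/
theorem two_terms {V : Subring D} (hV : TV V) {ι : Type*} (F : Finset ι) (hF : F.Nonempty)
    (x : ι → D) (hx : ∀ i ∈ F, x i ≠ 0) (hsum : ∑ i ∈ F, x i = 0) :
    ∃ i ∈ F, ∃ j ∈ F, i ≠ j ∧ (x i)⁻¹ * x j ∈ V ∧ (x j)⁻¹ * x i ∈ V := by
  classical
  have hmin : ∀ G : Finset ι, G.Nonempty → G ⊆ F → ∃ i ∈ G, ∀ j ∈ G, (x i)⁻¹ * x j ∈ V := by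
    intro G hG
    induction hG using Finset.Nonempty.cons_induction with
    | singleton i =>
      intro hsub
      refine ⟨i, Finset.mem_singleton_self i, ?_⟩
      intro j hj
      rw [Finset.mem_singleton.mp hj,
        inv_mul_cancel₀ (hx i (hsub (Finset.mem_singleton_self i)))]
      exact V.one_mem
    | cons k G hk hG ih =>
      intro hsub
      obtain ⟨i, hi, h⟩ := ih (fun y hy => hsub (Finset.mem_cons_of_mem hy))
      have hi0 := hx i (hsub (Finset.mem_cons_of_mem hi))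
      have hk0 := hx k (hsub (Finset.mem_cons_self k G))
      rcases hV ((x i)⁻¹ * x k) with h1 | h1
      · refine ⟨i, Finset.mem_cons_of_mem hi, ?_⟩
        intro j hj
        rcases Finset.mem_cons.mp hj with rfl | hj
        · exact h1
        · exact h j hj
      · refine ⟨k, Finset.mem_cons_self k G, ?_⟩
        intro j hj
        rcases Finset.mem_cons.mp hj with rfl | hj
        · rw [inv_mul_cancel₀ hk0]
          exact V.one_mem
        · have e : (x k)⁻¹ * x j = ((x i)⁻¹ * x k)⁻¹ * ((x i)⁻¹ * x j) := by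
            rw [mul_inv_rev, inv_inv, mul_assoc, mul_inv_cancel_left₀ hi0]
          rw [e]
          exact V.mul_mem h1 (h j hj)
  obtain ⟨i, hi, h⟩ := hmin F hF (Finset.Subset.refl F)
  have hi0 := hx i hi
  by_contra hno
  push Not at hno
  have hJ : ∀ j (hj : j ∈ F), j ≠ i → (⟨(x i)⁻¹ * x j, h j hj⟩ : V) ∈ JJ V := by
    intro j hj hji
    refine Or.inr ?_
    show ((x i)⁻¹ * x j)⁻¹ ∉ V
    rw [mul_inv_rev, inv_inv]
    exact hno i hi j hj (Ne.symm hji) (h j hj)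
  have h1 : ∑ j ∈ F.erase i, (x i)⁻¹ * x j = -1 := by
    rw [← Finset.mul_sum]
    have h2 : ∑ j ∈ F.erase i, x j = - x i := by
      have := Finset.add_sum_erase F x hi
      rw [hsum] at this
      exact eq_neg_of_add_eq_zero_right this
    rw [h2, mul_neg, inv_mul_cancel₀ hi0]
  have h2 : ∀ G : Finset ι, G ⊆ F.erase i →
      ∃ y : V, y ∈ JJ V ∧ (y : D) = ∑ j ∈ G, (x i)⁻¹ * x j := by
    intro G
    induction G using Finset.induction_on with
    | empty => exact fun _ => ⟨0, hV.mr.zero, by simp⟩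
    | insert k G hk ih =>
      intro hsub
      obtain ⟨y, hy, hy'⟩ := ih (fun z hz => hsub (Finset.mem_insert_of_mem hz))
      have hkm := hsub (Finset.mem_insert_self k G)
      have hkF := Finset.mem_of_mem_erase hkm
      refine ⟨⟨(x i)⁻¹ * x k, h k hkF⟩ + y,
        hV.mr.add _ (hJ k hkF (Finset.ne_of_mem_erase hkm)) _ hy, ?_⟩
      rw [Finset.sum_insert hk, ← hy']
      rfl
  obtain ⟨y, hy, hy'⟩ := h2 _ (Finset.Subset.refl _)
  rw [h1] at hy'
  have h3 : y = -1 := by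
    apply Subtype.ext
    rw [hy']
    simp
  apply hV.mr.one
  have h4 := hV.mr.neg hy
  rw [h3, neg_neg] at h4
  exact h4

/-- the overring `V[ζ⁻¹]`, `ζ` central -/
def Vz (V : Subring D) (ζ : D) (hζ : ζ ∈ V) (hc : ∀ d, ζ * d = d * ζ) : Subring D where
  carrier := {q | ∃ n : ℕ, ζ ^ n * q ∈ V}
  one_mem' := ⟨0, by simp [V.one_mem]⟩
  zero_mem' := ⟨0, by simp [V.zero_mem]⟩
  mul_mem' := by
    rintro x y ⟨n, hn⟩ ⟨m, hm⟩
    refine ⟨n + m, ?_⟩
    have hcm : ζ ^ m * x = x * ζ ^ m := (Commute.pow_left (hc x) m).eq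
    have e : ζ ^ (n + m) * (x * y) = (ζ ^ n * x) * (ζ ^ m * y) := by
      rw [pow_add, mul_assoc, mul_assoc, ← mul_assoc (ζ ^ m) x y, hcm, mul_assoc]
    rw [e]
    exact V.mul_mem hn hm
  add_mem' := by
    rintro x y ⟨n, hn⟩ ⟨m, hm⟩
    refine ⟨n + m, ?_⟩
    have e : ζ ^ (n + m) * (x + y) = ζ ^ m * (ζ ^ n * x) + ζ ^ n * (ζ ^ m * y) := by
      rw [mul_add, ← mul_assoc, ← mul_assoc, ← pow_add, ← pow_add, add_comm m n]
    rw [e]
    exact V.add_mem (V.mul_mem (V.pow_mem hζ m) hn) (V.mul_mem (V.pow_mem hζ n) hm)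
  neg_mem' := by
    rintro x ⟨n, hn⟩
    exact ⟨n, by rw [mul_neg]; exact V.neg_mem hn⟩

theorem mem_Vz {V : Subring D} {ζ : D} {hζ : ζ ∈ V} {hc : ∀ d, ζ * d = d * ζ} {q : D} :
    q ∈ Vz V ζ hζ hc ↔ ∃ n : ℕ, ζ ^ n * q ∈ V := Iff.rfl

theorem le_Vz {V : Subring D} {ζ : D} {hζ : ζ ∈ V} {hc : ∀ d, ζ * d = d * ζ} {q : D}
    (hq : q ∈ V) : q ∈ Vz V ζ hζ hc := ⟨0, by simpa using hq⟩

/-- the core: two different words with the same value up to a central factor -/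
theorem core {V : Subring D} (hV : TV V) {a s : D} (ha : a ∈ V) (hs : s ∈ V) (hs0 : s ≠ 0)
    {ζ : D} (hζ0 : ζ ≠ 0) (hζ : ζ ∈ V) (hc : ∀ d, ζ * d = d * ζ) {l l' : List (Fin 2)}
    (hl : l ≠ l') (h1 : ζ⁻¹ * ((wval a s l)⁻¹ * wval a s l') ∈ V)
    (h2 : ζ * ((wval a s l')⁻¹ * wval a s l) ∈ V) (hno2 : s⁻¹ * (a * s ^ 2) ∉ V) :
    s⁻¹ * (a * s ^ 3) ∈ V := by
  obtain ⟨ha0, hle, -⟩ := words hV ha hs hs0 hno2
  have hci : ∀ d, ζ⁻¹ * d = d * ζ⁻¹ := fun d => (Commute.inv_left₀ (hc d)).eq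
  have hw := wval_ne ha0 hs0 l
  have hw' := wval_ne ha0 hs0 l'
  -- `ζ⁻¹ W' ∈ V`
  have hWV : ∀ m, wval a s m ∈ V := by
    intro m
    have := (wval (⟨a, ha⟩ : V) ⟨s, hs⟩ m).2
    have e := map_wval V.subtype (⟨a, ha⟩ : V) ⟨s, hs⟩ m
    rw [Subring.subtype_apply] at e
    rw [e] at this
    exact this
  have h3 : ζ⁻¹ * wval a s l' ∈ V := by
    have e : ζ⁻¹ * wval a s l' = wval a s l * (ζ⁻¹ * ((wval a s l)⁻¹ * wval a s l')) := by
      rw [← mul_assoc (wval a s l), ← hci (wval a s l), mul_assoc, mul_inv_cancel_left₀ hw]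
    rw [e]
    exact V.mul_mem (hWV l) h1
  -- `ζ⁻ⁿ s² ∈ V`
  have h4 : ∀ n : ℕ, ζ⁻¹ ^ n * s ^ 2 ∈ V := by
    intro n
    obtain ⟨m, hm⟩ := wval_pow a s l' n
    have e1 : (ζ⁻¹ * wval a s l') ^ n = ζ⁻¹ ^ n * wval a s l' ^ n :=
      (show Commute ζ⁻¹ (wval a s l') from hci _).mul_pow n
    have e2 : ζ⁻¹ ^ n * s ^ 2 = (ζ⁻¹ * wval a s l') ^ n * ((wval a s m)⁻¹ * s ^ 2) := by
      rw [e1, hm, mul_assoc, mul_inv_cancel_left₀ (pow_ne_zero n hw')]
    rw [e2]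
    exact V.mul_mem (V.pow_mem h3 n) (hle m)
  -- `ζ⁻ⁿ s ∈ V`
  have h5 : ∀ n : ℕ, ζ⁻¹ ^ n * s ∈ V := by
    intro n
    rcases hV (ζ⁻¹ ^ n * s) with h | h
    · exact h
    · have hcn : ζ⁻¹ ^ n * s = s * ζ⁻¹ ^ n := (Commute.pow_left (hci s) n).eq
      have hz : ζ⁻¹ ^ n * s ≠ 0 := mul_ne_zero (pow_ne_zero n (inv_ne_zero hζ0)) hs0
      have e : ζ⁻¹ ^ n * s = (ζ⁻¹ ^ n * s)⁻¹ * (ζ⁻¹ ^ (2 * n) * s ^ 2) := by
        have e1 : ζ⁻¹ ^ (2 * n) * s ^ 2 = (ζ⁻¹ ^ n * s) * (ζ⁻¹ ^ n * s) := by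
          have h7 : (ζ⁻¹ ^ n * s) ^ 2 = (ζ⁻¹ ^ n) ^ 2 * s ^ 2 :=
            (show Commute (ζ⁻¹ ^ n) s from hcn).mul_pow 2
          rw [← pow_two, h7, ← pow_mul, mul_comm n 2]
        rw [e1, inv_mul_cancel_left₀ hz]
      rw [e]
      exact V.mul_mem h (h4 (2 * n))
  -- the overring
  have hV' : TV (Vz V ζ hζ hc) := by
    intro q
    rcases hV q with h | h
    · exact Or.inl (le_Vz h)
    · exact Or.inr (le_Vz h)
  have h6 : s⁻¹ * (a * s ^ 2) ∈ Vz V ζ hζ hc := by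
    by_contra hno
    refine words_ne hV' (le_Vz ha) (le_Vz hs) hs0 hno hl ?_ ?_
    · have e : (wval a s l)⁻¹ * wval a s l' = ζ * (ζ⁻¹ * ((wval a s l)⁻¹ * wval a s l')) := by
        rw [mul_inv_cancel_left₀ hζ0]
      rw [e]
      exact (Vz V ζ hζ hc).mul_mem (le_Vz hζ) (le_Vz h1)
    · exact mem_Vz.mpr ⟨1, by rw [pow_one]; exact h2⟩
  obtain ⟨n, hn⟩ := mem_Vz.mp h6
  have e : s⁻¹ * (a * s ^ 3) = (ζ ^ n * (s⁻¹ * (a * s ^ 2))) * (ζ⁻¹ ^ n * s) := by
    have hcn : ∀ d, ζ⁻¹ ^ n * d = d * ζ⁻¹ ^ n := fun d => (Commute.pow_left (hci d) n).eq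
    have h8 : ζ ^ n * ζ⁻¹ ^ n = 1 := by
      rw [← (show Commute ζ ζ⁻¹ from hc _).mul_pow, mul_inv_cancel₀ hζ0, one_pow]
    calc s⁻¹ * (a * s ^ 3) = (s⁻¹ * (a * s ^ 2)) * s := by
          rw [pow_succ s 2]
          simp only [mul_assoc]
      _ = ζ ^ n * (ζ⁻¹ ^ n * (s⁻¹ * (a * s ^ 2))) * s := by
          rw [← mul_assoc (ζ ^ n), h8, one_mul]
      _ = (ζ ^ n * (s⁻¹ * (a * s ^ 2))) * (ζ⁻¹ ^ n * s) := by
          rw [hcn, ← mul_assoc (ζ ^ n), mul_assoc]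
  rw [e]
  exact V.mul_mem hn (h5 n)

end Pool.Agent.Helper90_DRC
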